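import Pool.Agent.TOR.Stmts

set_option autoImplicit false

/-!
# Squad TOR, row AHL: an abstract lemma on Laurent series
-/

namespace Pool.Agent.TOR.H26

open HahnSeries

theorem ahl : AhlStmt := by
  intro E Γ Γ' _ _ _ _ _ _ _ pr hpr ι _ H ν hinj hcol
  classical
  have hinj' : ∀ t, Function.Injective (pr.comp (H t).subtype) := by
    intro t x y hxy
    have h1 : pr ((x : Γ) - y) = 0 := by
      rw [map_sub, sub_eq_zero]
      exact hxy
    have h2 := hinj t _ ((H t).sub_mem x.2 y.2) h1
    exact Subtype.ext (sub_eq_zero.1 h2)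
  have hle : ∀ t (g g' : H t), (pr.comp (H t).subtype) g ≤ (pr.comp (H t).subtype) g' ↔ g ≤ g' := by
    intro t g g'
    constructor
    · intro h
      by_contra hcon
      have h1 : g' < g := not_le.1 hcon
      have h2 : (pr.comp (H t).subtype) g' ≤ (pr.comp (H t).subtype) g := hpr h1.le
      exact h1.ne (hinj' t (le_antisymm h2 h))
    · intro h
      exact hpr h
  let em : ∀ t, HahnSeries (H t) E →+* HahnSeries Γ E := fun t =>
    embDomainRingHom (H t).subtype Subtype.coe_injective (fun g g' => Iff.rfl)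
  let em' : ∀ t, HahnSeries (H t) E →+* HahnSeries Γ' E := fun t =>
    embDomainRingHom (pr.comp (H t).subtype) (hinj' t) (hle t)
  refine ⟨em, em', fun t x a => embDomain_single, fun t x a => embDomain_single, ?_⟩
  intro u hne
  obtain ⟨g, hg⟩ : ∃ g, (∑ t, single (ν t) (1 : E) * em t (u t)).coeff g ≠ 0 := by
    by_contra h
    push Not at h
    exact hne (HahnSeries.ext (funext h))
  have hkey0 : ∀ (t) (z : HahnSeries Γ E), (single (ν t) (1 : E) * z).coeff g = z.coeff (g - ν t) := by
    intro t z
    rw [coeff_single_mul, one_mul]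
  have hg' := hg
  rw [coeff_sum] at hg'
  obtain ⟨t0, -, ht0⟩ := Finset.exists_ne_zero_of_sum_ne_zero hg'
  rw [hkey0] at ht0
  have hx0 : g - ν t0 ∈ H t0 := by
    by_contra hcon
    apply ht0
    apply embDomain_of_notMem_range
    rintro ⟨y, hy⟩
    apply hcon
    rw [← hy]
    exact y.2
  have hkey : ∀ t, (em' t (u t)).coeff (pr g - pr (ν t)) = (em t (u t)).coeff (g - ν t) := by
    intro t
    by_cases h : g - ν t ∈ H t
    · have e1 : pr g - pr (ν t) = (pr.comp (H t).subtype) ⟨g - ν t, h⟩ := by
        simp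
      have e2 : g - ν t = (H t).subtype ⟨g - ν t, h⟩ := rfl
      rw [e1]
      conv_rhs => rw [e2]
      exact (embDomain_coeff (f := ⟨⟨pr.comp (H t).subtype, hinj' t⟩, hle t _ _⟩)).trans
        (embDomain_coeff (f := ⟨⟨(H t).subtype, Subtype.coe_injective⟩, Iff.rfl⟩)).symm
    · have e1 : (em t (u t)).coeff (g - ν t) = 0 := by
        apply embDomain_of_notMem_range
        rintro ⟨y, hy⟩
        apply h
        rw [← hy]
        exact y.2
      rw [e1]
      apply embDomain_of_notMem_range
      rintro ⟨y, hy⟩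
      have h1 : pr (ν t + y) = pr (ν t0 + (g - ν t0)) := by
        have h2 : pr (y : Γ) = pr g - pr (ν t) := hy
        rw [map_add, h2]
        simp
      have h2 := hcol t t0 y y.2 _ hx0 h1
      apply h
      have h3 : g - ν t = y := by
        rw [sub_eq_iff_eq_add, add_comm, h2]
        abel
      rw [h3]
      exact y.2
  intro hzero
  apply hg
  rw [coeff_sum]
  have h1 : (∑ t, single (pr (ν t)) (1 : E) * em' t (u t)).coeff (pr g) = 0 := by
    rw [hzero]
    rfl
  rw [coeff_sum] at h1
  rw [← h1]
  refine Finset.sum_congr rfl fun t _ => ?_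
  rw [hkey0, ← hkey, coeff_single_mul, one_mul]

end Pool.Agent.TOR.H26
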