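import Pool.Agent.Helper26_TOR.Free
import Pool.Agent.Helper29_TOR.EXA

set_option autoImplicit false

/-!
# Squad TOR: examples, without a bound for the degrees
-/

namespace Pool.Agent.TOR.H26

open MvPolynomial

theorem thinX {E : Type} [Field E] (c n : ℕ) (f : MvPolynomial ℕ E) (hf : f.vars ⊆ Finset.range n)
    (h : f.support.card ≤ c + 1 ∨ f.vars.card ≤ c) : IsThinX E c n f := by
  rcases h with h | h
  · exact thin_of ((H29.exa E 0 c n 0 f.totalDegree).1 f hf le_rfl h)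
  · exact thin_of ((H29.exa E 0 c n 0 f.totalDegree).2.1 f hf le_rfl h)

theorem sumX {E : Type} [Field E] (k c n s : ℕ) (N : Fin k → ℕ) (g : Fin k → MvPolynomial ℕ E)
    (f : ∀ i : Fin k, Fin (N i) → MvPolynomial ℕ E) (e : ∀ i : Fin k, Fin (N i) → ℕ)
    (hN : ∀ i, N i ≤ s) (hf : ∀ i v, IsThinX E c n (f i v))
    (hg : ∀ i, (g i).vars ⊆ Finset.range n ∧ (g i).support.card ≤ s) :
    IsCmpX E k c n s (∑ i, g i * ∏ v, f i v ^ e i v) := by
  choose D1 h1 using fun i => fin_bound fun v => (f i v).totalDegree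
  obtain ⟨D2, h2⟩ := fin_bound D1
  obtain ⟨D3, h3⟩ := fin_bound fun i => (g i).totalDegree
  refine cmp_of ((H29.exa E k c n s (D2 + D3)).2.2 N g f e hN (fun i v => ?_) fun i => ?_)
  · have := (h1 i v).trans (h2 i)
    exact ⟨(hf i v).1, by omega, (hf i v).2⟩
  · have := h3 i
    exact ⟨(hg i).1, by omega, (hg i).2⟩

end Pool.Agent.TOR.H26
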