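import Pool.Agent.Helper22_TOR.MOD

/-!
# Squad TOR: injective exponents for finitely many spaces, without a bound for the entries

This is helper22's proof of the row MOD, where the hypothesis `R! D ^ R < q` was not used.
-/

set_option autoImplicit false

namespace Pool.Agent.TOR.H26

open Pool.Agent.TOR
open Pool.Agent.TOR.H22 (pair pair_apply supp_of_intSpan)

theorem modX (hvdm : VdmStmt) (n R D q : ℕ) (ι : Type) [Fintype ι]
    (V : ι → Submodule ℚ (ℕ →₀ ℚ)) (hq : q.Prime) (hcard : Fintype.card ι * n < q)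
    (hint : ∀ i, IntSpan n D (V i)) (hdim : ∀ i, Module.finrank ℚ (V i) ≤ R) :
    ∃ α : Fin R → Fin q, ∀ i, ∀ v ∈ V i,
      (∀ j, ∑ l ∈ Finset.range n, v l * (wt q (α j) l : ℚ) = 0) → v = 0 := by
  classical
  have hfd : ∀ i, FiniteDimensional ℚ (V i) := fun i => (supp_of_intSpan (hint i)).1
  have hsupp : ∀ i, ∀ v ∈ V i, ∀ l, n ≤ l → v l = 0 := fun i => (supp_of_intSpan (hint i)).2
  let r : ι → ℕ := fun i => Module.finrank ℚ (V i)
  let B : ∀ i, Module.Basis (Fin (r i)) ℚ (V i) := fun i => Module.finBasis ℚ (V i)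
  let w : ∀ i, Fin (r i) → ℕ →₀ ℚ := fun i a => (B i a : ℕ →₀ ℚ)
  let Δ : ∀ i, MultilinearMap ℚ (fun _ : Fin (r i) => ℕ → ℚ) ℚ := fun i =>
    (Matrix.detRowAlternating (R := ℚ) (n := Fin (r i))).toMultilinearMap.compLinearMap
      (fun _ => pair n (w i))
  have hΔ : ∀ i u, Δ i u =
      (Matrix.of fun (j a : Fin (r i)) => ∑ l ∈ Finset.range n, w i a l * u j l).det := by
    intro i u
    show Matrix.det (fun j => pair n (w i) (u j)) = _
    refine congrArg Matrix.det ?_
    ext j a
    exact pair_apply n (w i) (u j) a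
  have hminor : ∀ i, ∃ c : Fin (r i) → ℕ, (∀ j, c j < n) ∧
      Δ i (fun j => Pi.single (c j) 1) ≠ 0 := by
    intro i
    have hli : LinearIndependent ℚ (fun (a : Fin (r i)) (l : Fin n) => w i a l) := by
      rw [Fintype.linearIndependent_iff]
      intro c hc
      have h0 : ∑ a, c a • B i a = 0 := by
        apply Subtype.ext
        rw [AddSubmonoidClass.coe_finsetSum]
        ext l
        rw [Finsupp.finsetSum_apply]
        by_cases hl : l < n
        · have h := congrFun hc ⟨l, hl⟩
          rw [Finset.sum_apply] at h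
          exact h
        · refine Finset.sum_eq_zero fun a _ => ?_
          have h2 := hsupp i (w i a) (B i a).2 l (not_lt.1 hl)
          show c a • (w i a) l = 0
          rw [h2, smul_zero]
      exact Fintype.linearIndependent_iff.1 (B i).linearIndependent c h0
    obtain ⟨jj, hjj⟩ := Pool.Agent.RS.H82.exists_minor _ hli
    refine ⟨fun j => jj j, fun j => (jj j).2, ?_⟩
    rw [hΔ, ← Matrix.det_transpose]
    have e : (Matrix.of fun (j a : Fin (r i)) => ∑ l ∈ Finset.range n,
        w i a l * (Pi.single (jj j : ℕ) (1 : ℚ) : ℕ → ℚ) l).transpose =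
        Matrix.of fun (l j : Fin (r i)) => w i l (jj j) := by
      ext a j
      rw [Matrix.transpose_apply, Matrix.of_apply, Matrix.of_apply, Finset.sum_eq_single (jj j : ℕ)]
      · rw [Pi.single_eq_same, mul_one]
      · intro l _ hne
        rw [Pi.single_eq_of_ne hne, mul_zero]
      · intro h
        exact absurd (Finset.mem_range.2 (jj j).2) h
    rw [e]
    exact hjj
  obtain ⟨α, hα⟩ := H22.mln hvdm ℚ n q R ι r Δ hq hcard hdim hminor
  refine ⟨α, fun i v hv hz => ?_⟩
  have hdet := hα i
  rw [hΔ] at hdet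
  have h0 := Matrix.eq_zero_of_mulVec_eq_zero (v := fun a => (B i).repr ⟨v, hv⟩ a) hdet (by
    funext j
    rw [Pi.zero_apply, Matrix.mulVec, dotProduct]
    have hv2 : ∀ l, v l = ∑ a, (B i).repr ⟨v, hv⟩ a * w i a l := by
      intro l
      have h1 := congrArg (fun x : V i => (x : ℕ →₀ ℚ) l) ((B i).sum_repr ⟨v, hv⟩)
      simp only at h1
      rw [← h1, AddSubmonoidClass.coe_finsetSum, Finsupp.finsetSum_apply]
      rfl
    refine Eq.trans ?_ (hz (Fin.castLE (hdim i) j))
    simp only [Matrix.of_apply, Finset.sum_mul]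
    rw [Finset.sum_comm]
    refine Finset.sum_congr rfl fun l hl => ?_
    rw [hv2 l, Finset.sum_mul]
    refine Finset.sum_congr rfl fun a _ => ?_
    rw [if_pos (Finset.mem_range.1 hl)]
    ring)
  have h1 : (⟨v, hv⟩ : V i) = 0 := by
    rw [← (B i).sum_repr ⟨v, hv⟩]
    refine Finset.sum_eq_zero fun a _ => ?_
    have h2 := congrFun h0 a
    simp only [Pi.zero_apply] at h2
    rw [h2, zero_smul]
  exact congrArg Subtype.val h1

end Pool.Agent.TOR.H26
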