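import Pool.Agent.Helper26_TOR.Free
import Pool.Agent.Helper26_TOR.ModX
import Pool.Agent.Helper45_TOR.HIT
import Pool.Agent.Helper2_TOR.NUM

set_option autoImplicit false

/-!
# Squad TOR: the hitting set without a bound for the degrees

An edit of helper45's proof of the row HIT.
-/

namespace Pool.Agent.TOR.H26

open MvPolynomial
open Pool.Agent.RS (FF io total numer)
open Pool.Agent.TOR.H45 (gexp_apply supp lin_apply vars_prod vars_cmp eval_sub)

theorem numX (k n s : ℕ) :
    s * (k.factorial * (s + s * s) ^ k + 1) ^ 2 * n < (n + s + k + 2) ^ (6 * k + 5) ∧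
    s * n < (n + s + k + 2) ^ (6 * k + 5) := by
  set B := n + s + k + 2 with hB
  have hB2 : 2 ≤ B := by omega
  have hn : n ≤ B := by omega
  have hs : s ≤ B := by omega
  have hk : k ≤ B := by omega
  have hsn : s * n ≤ B ^ 2 := by
    rw [pow_two]
    exact Nat.mul_le_mul hs hn
  have h1 : k.factorial ≤ B ^ k := H2.num_fac k B hk
  have h2 : s + s * s ≤ B ^ 2 := by
    have h3 : s + s * s = s * (s + 1) := by ring
    rw [h3, pow_two]
    exact Nat.mul_le_mul hs (by omega)
  have h3 : (s + s * s) ^ k ≤ B ^ (2 * k) := by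
    rw [pow_mul]
    exact Nat.pow_le_pow_left h2 k
  have h4 : k.factorial * (s + s * s) ^ k ≤ B ^ (3 * k) := by
    have h5 : B ^ (3 * k) = B ^ k * B ^ (2 * k) := by
      rw [← pow_add]
      congr 1
      ring
    rw [h5]
    exact Nat.mul_le_mul h1 h3
  have h5 : k.factorial * (s + s * s) ^ k + 1 ≤ B ^ (3 * k + 1) := by
    have h6 : 1 ≤ B ^ (3 * k) := Nat.one_le_pow _ _ (by omega)
    have h7 : B ^ (3 * k) * 2 ≤ B ^ (3 * k) * B := Nat.mul_le_mul_left _ hB2
    rw [pow_succ]
    omega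
  have h6 : (k.factorial * (s + s * s) ^ k + 1) ^ 2 ≤ B ^ ((3 * k + 1) * 2) := by
    rw [pow_mul]
    exact Nat.pow_le_pow_left h5 2
  constructor
  · calc s * (k.factorial * (s + s * s) ^ k + 1) ^ 2 * n
        = (s * n) * (k.factorial * (s + s * s) ^ k + 1) ^ 2 := by ring
      _ ≤ B ^ 2 * B ^ ((3 * k + 1) * 2) := Nat.mul_le_mul hsn h6
      _ = B ^ (2 + (3 * k + 1) * 2) := (pow_add _ _ _).symm
      _ < B ^ (6 * k + 5) := H2.num_lt _ _ _ hB2 (by omega)
  · exact hsn.trans_lt (H2.num_lt _ _ _ hB2 (by omega))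

/-- The hitting set, for polynomials of any degree. -/
theorem hitX (vdm : VdmStmt) (mln : MlnStmt) (mai : MaiStmt) (dul : DulStmt) (E : Type) [Field E]
    [CharZero E] (k c n s t q : ℕ) (hq : q.Prime) (ht : 6 * k * c + k + 1 ≤ t)
    (hqb : (n + s + k + 2) ^ (6 * k + 5) ≤ q) (S : List (MvPolynomial ℕ E)) (hS : S.length ≤ s)
    (hSX : ∀ F ∈ S, IsCmpX E k c n s F) (hS0 : S.prod ≠ 0) :
    ∃ (α : Fin t → Fin q) (y : Fin t → E), eval (tpoint n q α y) S.prod ≠ 0 := by
  obtain ⟨hn1, hn2⟩ := numX k n s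
  obtain ⟨D, hSF⟩ := list_bound S hSX
  have hE : Infinite E := inferInstance
  have hF0 : ∀ i : Fin S.length, S.get i ≠ 0 := by
    intro i h
    exact hS0 (List.prod_eq_zero (h ▸ List.get_mem S i))
  have hFc : ∀ i : Fin S.length, IsCmp E k c n s D (S.get i) := fun i => hSF _ (List.get_mem S i)
  choose ρ Δ ι fι V hρ hc' hcard hInt hfin hmain using
    fun i : Fin S.length => mai E k c n s D (S.get i) (hFc i) (hF0 i)
  have hch : CharZero (FF E) :=
    charZero_of_injective_algebraMap (IsFractionRing.injective (MvPolynomial ℕ E) (FF E))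
  obtain ⟨β, hβ⟩ := mln (FF E) n q k (Fin S.length) ρ Δ hq (by
    rw [Fintype.card_fin]
    calc S.length * n ≤ s * n := Nat.mul_le_mul_right n hS
      _ < _ := hn2
      _ ≤ q := hqb) hρ hc'
  obtain ⟨α', hα'⟩ := modX vdm n (6 * k * c + 1) ((2 * k + 1) * D) q (Σ i, ι i)
    (fun x => V x.1 x.2) hq (by
      rw [Fintype.card_sigma]
      calc (∑ i, Fintype.card (ι i)) * n
          ≤ (∑ _i : Fin S.length, (k.factorial * (s + s * s) ^ k + 1) ^ 2) * n :=
            Nat.mul_le_mul_right n (Finset.sum_le_sum fun i _ => hcard i)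
        _ = S.length * (k.factorial * (s + s * s) ^ k + 1) ^ 2 * n := by
            rw [Finset.sum_const, Finset.card_univ, Fintype.card_fin, smul_eq_mul]
        _ ≤ s * (k.factorial * (s + s * s) ^ k + 1) ^ 2 * n :=
            Nat.mul_le_mul_right n (Nat.mul_le_mul_right _ hS)
        _ < _ := hn1
        _ ≤ q := hqb)
    (fun x => hInt x.1 x.2) (fun x => hfin x.1 x.2)
  -- the exponents
  obtain ⟨α, hα⟩ : ∃ α : Fin t → Fin q, ∀ j : Fin t, α j =
      if h : (j : ℕ) < 6 * k * c + 1 then α' ⟨j, h⟩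
      else if h' : (j : ℕ) - (6 * k * c + 1) < k then β ⟨(j : ℕ) - (6 * k * c + 1), h'⟩
      else ⟨0, hq.pos⟩ := ⟨_, fun _ => rfl⟩
  have hsub : ∀ i : Fin S.length, sub (gexp q α) (S.get i) ≠ 0 := by
    intro i
    refine hmain i (gexp q α) (fun j => 6 * k * c + 1 + j) ?_ ?_
    · have h1 : (fun (j : Fin (ρ i)) l => if l < n then
          ((gexp q α l (6 * k * c + 1 + (j : ℕ)) : ℕ) : FF E) else 0) =
          (fun j l => if l < n then (wt q (β (Fin.castLE (hρ i) j)) l : FF E) else 0) := by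
        funext j l
        have hj : (j : ℕ) < k := lt_of_lt_of_le j.2 (hρ i)
        have hjt : 6 * k * c + 1 + (j : ℕ) < t := by omega
        have h2 := gexp_apply α l ⟨6 * k * c + 1 + (j : ℕ), hjt⟩
        have h3 : α ⟨6 * k * c + 1 + (j : ℕ), hjt⟩ = β (Fin.castLE (hρ i) j) := by
          rw [hα, dif_neg (by dsimp only; omega), dif_pos (by dsimp only; omega)]
          congr 1
          apply Fin.ext
          dsimp only [Fin.val_castLE]
          omega
        rw [h3] at h2
        rw [show gexp q α l (6 * k * c + 1 + (j : ℕ)) = wt q (β (Fin.castLE (hρ i) j)) l from h2]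
      rw [h1]
      exact hβ i
    · intro x v hv hlv
      refine hα' ⟨i, x⟩ v hv fun j => ?_
      have hjt : (j : ℕ) < t := by
        have := j.2
        omega
      have h2 : α ⟨(j : ℕ), hjt⟩ = α' j := by
        rw [hα, dif_pos j.2]
      have h3 := congrArg (fun w : ℕ →₀ ℚ => w (j : ℕ)) hlv
      beta_reduce at h3
      rw [lin_apply (hInt i x) hv, Finsupp.zero_apply] at h3
      rw [← h3]
      refine Finset.sum_congr rfl fun l _ => ?_
      have h4 := gexp_apply α l ⟨(j : ℕ), hjt⟩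
      rw [h2] at h4
      rw [show gexp q α l (j : ℕ) = wt q (α' j) l from h4]
  have hprod : sub (gexp q α) S.prod ≠ 0 := by
    rw [map_list_prod]
    apply List.prod_ne_zero
    intro h
    obtain ⟨F, hF, h0⟩ := List.mem_map.1 h
    obtain ⟨i, hi⟩ := List.get_of_mem hF
    exact hsub i (by rw [hi]; exact h0)
  obtain ⟨z, hz⟩ : ∃ z : ℕ → E, eval z (sub (gexp q α) S.prod) ≠ 0 := by
    by_contra h
    push Not at h
    apply hprod
    apply MvPolynomial.funext
    intro z
    rw [h z, map_zero]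
  refine ⟨α, fun j => z j, ?_⟩
  rw [← eval_sub α z S.prod (vars_prod S fun F hF => vars_cmp dul (hSF F hF))]
  exact hz

end Pool.Agent.TOR.H26
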