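import Pool.Agent.Helper26_TOR.KEY
import Pool.Agent.Helper26_TOR.AHL
import Pool.Agent.Helper26_TOR.HitX
import Pool.Agent.Helper26_TOR.ExaX
import Pool.Agent.Helper21_TOR.MON
import Pool.Agent.Helper85_TOR.ISP
import Pool.Agent.Helper75_TOR.SUB
import Pool.Agent.Helper75_TOR.DTX
import Pool.Agent.Helper8_TOR.DUL
import Pool.Agent.Helper8_TOR.EXP
import Pool.Agent.Helper22_TOR.FTH
import Pool.Agent.Helper22_TOR.MLN
import Pool.Agent.Helper22_TOR.VDM
import Pool.Agent.Helper24_TOR.MAI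
import Pool.Agent.Helper29_TOR.TST

set_option autoImplicit false

/-!
# Squad TOR: assembly
-/

namespace Pool.Agent.TOR

open MvPolynomial

theorem aSub : SubStmt := H75.sub'

theorem aMon : MonStmt := H21.mon

theorem aIsp : IspStmt := H85.isp

theorem aSnz : SnzStmt := H8.snz aSub

theorem aDul : DulStmt := H8.dul

theorem aKey : KeyStmt := H26.key H26.ahl aSub

theorem aVdm : VdmStmt := H22.vdm

theorem aMln : MlnStmt := H22.mln aVdm

theorem aFth : FthStmt := H22.fth aSub

theorem aExp : ExpStmt := H8.exp aMon aIsp aSnz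

theorem aDtx : DtxStmt := H75.dtx aExp aMon aIsp aSnz aKey

theorem aMai : MaiStmt := H24.mai aFth aDul aDtx

theorem aTst : TstStmt := H29.tst

/-- The hitting set. -/
theorem aHitX (E : Type) [Field E] [CharZero E] (k c n s t q : ℕ) (hq : q.Prime)
    (ht : 6 * k * c + k + 1 ≤ t) (hqb : (n + s + k + 2) ^ (6 * k + 5) ≤ q)
    (S : List (MvPolynomial ℕ E)) (hS : S.length ≤ s) (hSX : ∀ F ∈ S, IsCmpX E k c n s F)
    (hS0 : S.prod ≠ 0) : ∃ (α : Fin t → Fin q) (y : Fin t → E),
      eval (tpoint n q α y) S.prod ≠ 0 :=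
  H26.hitX aVdm aMln aMai aDul E k c n s t q hq ht hqb S hS hSX hS0

end Pool.Agent.TOR
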