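import Mathlib
import Pool.Agent.Helper82_TOR.Few

set_option autoImplicit false

/-!
# Squad TOR: the test for factors of divisors of the class

`poly G` divides (over `ℤ`) a sum of products of powers which divides (over the field) a nonzero product
of members of the class.
-/

namespace Pool.Agent.TOR.H26

open Polynomial Pool.Agent.Helper78_ACIT Pool.Agent.UO Pool.Agent.TOR.H82

variable {t : ℕ}

/-- Divisors of the class which are sums of products of powers are hit. -/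
theorem exists_binX (E : Type) [Field E] [CharZero E] (k c n s q : ℕ) (hq : q.Prime)
    (ht : 6 * k * c + k + 1 ≤ t) (hQ : (n + s + k + 2) ^ (6 * k + 5) ≤ q) (hk : 1 ≤ k)
    (hc : 1 ≤ c) (S : List (MvPolynomial ℕ E)) (hS : S.length < s)
    (hSX : ∀ F ∈ S, IsCmpX E k c n s F) (hS0 : S.prod ≠ 0) (m N b D : ℕ)
    (f : Fin m → MvPolynomial ℕ ℤ)
    (A : Fin N → MvPolynomial ℕ ℤ) (e : Fin N → Fin m → ℕ)
    (hfn : ∀ j, (f j).vars ⊆ Finset.range n) (hAn : ∀ i, (A i).vars ⊆ Finset.range n)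
    (hprim : ∀ j, ∀ z : ℤ, MvPolynomial.C z ∣ f j → IsUnit z)
    (hfD : ∀ j, (f j).totalDegree ≤ D) (hAD : ∀ i, (A i).totalDegree ≤ D)
    (hfb : ∀ j, length (f j) ≤ 2 ^ b) (hAb : ∀ i, length (A i) ≤ 2 ^ b)
    (he : ∀ i j, e i j ≤ 2 ^ b) (hms : ∑ j, (f j).support.card ^ 2 ≤ s)
    (hdvd : MvPolynomial.map (Int.castRingHom E) (∑ i, A i * ∏ j, f j ^ e i j) ∣ S.prod) :
    ∃ p, p.Prime ∧ p ≤ (m + N + b + D * t * q + 2) ^ 50 ∧
      ∃ (α : Fin t → Fin q) (β γ : Fin t → ZMod p),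
      ¬ (X : (ZMod p)[X]) ^ (N ^ 2 * m * (D * t * q) + N * (D * t * q) + N) ∣
        lineM n q p α β γ (∑ i, A i * ∏ j, f j ^ e i j) := by
  classical
  obtain ⟨F, hF⟩ : ∃ F, F = ∑ i, A i * ∏ j, f j ^ e i j := ⟨_, rfl⟩
  rw [← hF] at hdvd ⊢
  obtain ⟨L, hL⟩ : ∃ L : List ((ℕ →₀ ℕ) × (ℕ →₀ ℕ)), L =
      (List.finRange m).flatMap fun j => (prs (f j)).toList := ⟨_, rfl⟩
  have hmem : ∀ p, p ∈ L ↔ ∃ j, p ∈ prs (f j) := by
    intro p
    rw [hL, List.mem_flatMap]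
    constructor
    · rintro ⟨j, -, hj⟩
      exact ⟨j, Finset.mem_toList.1 hj⟩
    · rintro ⟨j, hj⟩
      exact ⟨j, List.mem_finRange j, Finset.mem_toList.2 hj⟩
  have hLlen : L.length ≤ s := by
    refine le_trans ?_ hms
    rw [hL, List.length_flatMap, ← List.ofFn_eq_map, List.sum_ofFn]
    refine Finset.sum_le_sum fun j _ => ?_
    rw [Finset.length_toList]
    exact card_prs _
  have hL0 : (L.map (bin E)).prod ≠ 0 := by
    intro h
    rw [List.prod_eq_zero_iff, List.mem_map] at h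
    obtain ⟨p, hp, hp0⟩ := h
    obtain ⟨j, hj⟩ := (hmem p).1 hp
    exact bin_ne (mem_prs.1 hj).2.2 hp0
  have hLc : IsCmpX E k c n s ((L.map (bin E)).prod) := by
    refine cmp_bins k c n s hk hc (by omega) L hLlen fun p hp => ?_
    obtain ⟨j, hj⟩ := (hmem p).1 hp
    obtain ⟨h1, h2, -⟩ := mem_prs.1 hj
    exact ⟨supp_range (hfn j) _ h1, supp_range (hfn j) _ h2⟩
  obtain ⟨α, y, hy⟩ := aHitX E k c n s t q hq ht hQ
    ((L.map (bin E)).prod :: S) (by simpa using hS)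
    (by
      intro G hG
      rw [List.mem_cons] at hG
      rcases hG with rfl | hG
      · exact hLc
      · exact hSX G hG) (by
      rw [List.prod_cons]
      exact mul_ne_zero hL0 hS0)
  rw [List.prod_cons, map_mul] at hy
  have hy2 := left_ne_zero_of_mul hy
  have hy1 : MvPolynomial.eval (tpoint n q α y) (MvPolynomial.map (Int.castRingHom E) F) ≠ 0 := by
    intro h
    apply right_ne_zero_of_mul hy
    obtain ⟨H, hH⟩ := hdvd
    rw [hH, map_mul, h, zero_mul]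
  have hinj : ∀ j, ∀ u ∈ (f j).support, ∀ v ∈ (f j).support, u ≠ v → ev q α u ≠ ev q α v := by
    intro j u hu v hv huv h
    rw [map_list_prod] at hy2
    apply hy2
    rw [List.prod_eq_zero_iff, List.mem_map]
    refine ⟨bin E (u, v), List.mem_map.2 ⟨(u, v), (hmem _).2 ⟨j, mem_prs.2 ⟨hu, hv, huv⟩⟩, rfl⟩, ?_⟩
    have h1 : ∀ w : ℕ →₀ ℕ, w.support ⊆ Finset.range n →
        MvPolynomial.eval (tpoint n q α y) (MvPolynomial.monomial w (1 : E)) =
        MvPolynomial.eval y (MvPolynomial.monomial (ev q α w) (1 : E)) := by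
      intro w hw
      have h2 := eval_mo n q α y (MvPolynomial.monomial w (1 : ℤ))
      rw [mo_monomial n q α w hw, MvPolynomial.map_monomial, MvPolynomial.map_monomial] at h2
      simpa using h2
    unfold bin
    rw [map_sub, h1 _ (supp_range (hfn j) _ hu), h1 _ (supp_range (hfn j) _ hv), h, sub_self]
  have hmF : mo n q α F = ∑ i, mo n q α (A i) * ∏ j, mo n q α (f j) ^ e i j := by
    rw [hF]
    simp only [map_sum, map_mul, map_prod, map_pow]
  have hmF0 : ∑ i, mo n q α (A i) * ∏ j, mo n q α (f j) ^ e i j ≠ 0 := by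
    rw [← hmF]
    intro h
    apply hy1
    rw [eval_mo, h, map_zero, map_zero]
  obtain ⟨p, hp, hple, β, γ, hn⟩ := exists_few m N (D * t * q) b (fun j => mo n q α (f j))
    (fun i => mo n q α (A i)) e (fun j z hz => prim_mo n q α (f j) (hfn j) (hinj j) (hprim j) z hz)
    (fun j => totalDegree_mo n q D α (f j) (hfn j) (hfD j))
    (fun i => totalDegree_mo n q D α (A i) (hAn i) (hAD i))
    (fun j => (len_mo n q α (f j) (hfn j)).trans (hfb j))
    (fun i => (len_mo n q α (A i) (hAn i)).trans (hAb i)) he hmF0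
  refine ⟨p, hp, hple, α, β, γ, ?_⟩
  rw [lineM_eq, hmF]
  exact hn

/-- The exponent `R` of the test. -/
theorem expo_le (m N b T : ℕ) : N ^ 2 * m * T + N * T + N ≤ (m + N + b + T + 2) ^ 50 := by
  obtain ⟨x, hx⟩ : ∃ x, x = m + N + b + T + 2 := ⟨_, rfl⟩
  have h2 : 2 ≤ x := by omega
  have hm : m ≤ x := by omega
  have hN : N ≤ x := by omega
  have hT : T ≤ x := by omega
  have h1 : N ^ 2 * m * T + N * T + N ≤ x ^ 2 * x * x + x * x + x :=
    Nat.add_le_add (Nat.add_le_add (Nat.mul_le_mul (Nat.mul_le_mul (Nat.pow_le_pow_left hN 2) hm) hT)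
      (Nat.mul_le_mul hN hT)) hN
  have h3 : x ^ 2 * x * x + x * x + x ≤ x ^ 5 := by
    have h4 : x * x ^ 4 ≥ 2 * x ^ 4 := Nat.mul_le_mul_right _ h2
    have h5 : x ^ 2 * x * x = x ^ 4 := by ring
    have h6 : x ^ 2 ≥ 4 := by nlinarith
    have h7 : x * x + x ≤ x ^ 4 := by nlinarith
    have h8 : x ^ 5 = x * x ^ 4 := by ring
    rw [h5, h8]
    omega
  rw [← hx]
  exact h1.trans (h3.trans (Nat.pow_le_pow_right (by omega) (by norm_num)))

/-- The test for circuits of unbounded degree. -/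
theorem test_binX (E : Type) [Field E] [CharZero E] (k c n s q : ℕ) (hq : q.Prime)
    (ht : 6 * k * c + k + 1 ≤ t) (hQ : (n + s + k + 2) ^ (6 * k + 5) ≤ q) (hk : 1 ≤ k)
    (hc : 1 ≤ c) (m N b D R : ℕ) (hR : R = (m + N + b + D * t * q + 2) ^ 50)
    (f : Fin m → MvPolynomial ℕ ℤ)
    (A : Fin N → MvPolynomial ℕ ℤ) (e : Fin N → Fin m → ℕ)
    (hfn : ∀ j, (f j).vars ⊆ Finset.range n) (hAn : ∀ i, (A i).vars ⊆ Finset.range n)
    (hprim : ∀ j, ∀ z : ℤ, MvPolynomial.C z ∣ f j → IsUnit z)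
    (hfD : ∀ j, (f j).totalDegree ≤ D) (hAD : ∀ i, (A i).totalDegree ≤ D)
    (hfb : ∀ j, length (f j) ≤ 2 ^ b) (hAb : ∀ i, length (A i) ≤ 2 ^ b)
    (he : ∀ i j, e i j ≤ 2 ^ b) (hms : ∑ j, (f j).support.card ^ 2 ≤ s)
    (G : List Gate) (hG : WellFormed G)
    (hpoly : poly G = 0 ∨ (poly G ∣ ∑ i, A i * ∏ j, f j ^ e i j ∧
      ∃ S : List (MvPolynomial ℕ E), S.length < s ∧ (∀ F ∈ S, IsCmpX E k c n s F) ∧ S.prod ≠ 0 ∧
        MvPolynomial.map (Int.castRingHom E) (∑ i, A i * ∏ j, f j ^ e i j) ∣ S.prod)) :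
    G ∈ ACIT ↔ ∀ p, p.Prime → p ≤ R → ∀ (α : Fin t → Fin q) (β γ : Fin t → ZMod p),
      powValue n q p R α β γ G = 0 := by
  constructor
  · rintro ⟨-, h0⟩ p _ _ α β γ
    rw [powValue_eq, h0, map_zero, map_zero]
  · intro htest
    refine ⟨hG, ?_⟩
    rcases hpoly with h0 | ⟨hdvd, S, hS, hSX, hS0, hH⟩
    · exact h0
    exfalso
    obtain ⟨p, hp, hple, α, β, γ, hhit⟩ := exists_binX E k c n s q hq ht hQ hk hc S hS hSX hS0
      m N b D f A e hfn hAn hprim hfD hAD hfb hAb he hms hH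
    have h1 := htest p hp (hple.trans hR.ge) α β γ
    rw [powValue_eq, AdjoinRoot.mk_eq_zero] at h1
    refine hhit (dvd_trans (pow_dvd_pow _ ?_) (h1.trans (map_dvd (lineM n q p α β γ) hdvd)))
    rw [hR]
    exact expo_le m N b (D * t * q)

end Pool.Agent.TOR.H26
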