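import Mathlib
import Pool.Agent.Helper78_ACIT.Circuit
import Pool.Agent.Helper78_ACIT.Prime
import Pool.Agent.Helper26_TOR.BinX

set_option autoImplicit false

/-!
# `MP_b2b50d_lc`: polynomial-size hitting sets for sums of `k` products of polynomials with Newton
polytopes of bounded dimension

For all fixed `k` and `c` the purely monomial generator `x_i = ∏ j < t, y_j ^ (α_j ^ i mod q)`, with a
constant number `t = 6 k c + k + 1` of parameters `α_j` in `{0, ..., q - 1}` and a prime `q` of polynomial
size, hits all nonzero sums of `k` products of powers of polynomials `f` whose Newton polytopes have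
dimension at most `c`: all exponent vectors of `f` lie in an affine space of dimension at most `c`.
There is no bound for the degrees of the factors and for the exponents of the powers, and `q` does not
depend on them.  Such factors are for example all polynomials with at most `c + 1` monomials (depth-4
circuits in which both sum layers have bounded fan-in, without any bound for the products), polynomials
in at most `c` variables or in at most `c` monomials, and homogeneous polynomials in at most `c + 1`
variables.  More generally the generator hits all nonzero polynomials `C(T_1, ..., T_m)` with an arbitrary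
polynomial `C` and clusters `T_i = f_1 ^ e_1 ... f_N ^ e_N (a_1 / b_1 + ... + a_M / b_M)` of such
polynomials, at most `k` of which are algebraically independent; for example every product may contain
one arbitrary sparse polynomial.  Hence circuits of any shape, also of exponential degree, which compute
a factor of such a polynomial, written with integer coefficients and with exponents in binary, have a
deterministic black-box identity test with polynomially many evaluations modulo small primes.
-/

namespace Pool.Agent.TOR.Final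

open MvPolynomial Pool.Agent.Helper78_ACIT Pool.Agent.UO

/-- The exponent vector `s` with rational entries. -/
noncomputable def expVec (s : ℕ →₀ ℕ) : ℕ →₀ ℚ := s.mapRange (fun a : ℕ => (a : ℚ)) Nat.cast_zero

/-- `f` is a polynomial in `x_0, ..., x_(n-1)`, of any degree, and its Newton polytope has dimension at
most `c`: the exponent vectors of `f` lie in an affine space of dimension at most `c`. -/
def IsThin (E : Type) [Field E] (c n : ℕ) (f : MvPolynomial ℕ E) : Prop :=
  f.vars ⊆ Finset.range n ∧
    Module.finrank ℚ (vectorSpan ℚ (expVec '' (f.support : Set (ℕ →₀ ℕ)))) ≤ c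

/-- A cluster `T = f_1 ^ e_1 ... f_N ^ e_N (a_1 / b_1 + ... + a_M / b_M)` with `N, M ≤ s`, thin
polynomials `f_v`, `a_t`, `b_t` and arbitrary exponents `e_v` (the equation is multiplied by
`b_1 ... b_M`). -/
def IsCluster (E : Type) [Field E] (c n s : ℕ) (T : MvPolynomial ℕ E) : Prop :=
  ∃ (N M : ℕ) (f : Fin N → MvPolynomial ℕ E) (e : Fin N → ℕ) (a b : Fin M → MvPolynomial ℕ E),
    N ≤ s ∧ M ≤ s ∧ (∀ v, IsThin E c n (f v)) ∧ (∀ t, IsThin E c n (a t)) ∧
    (∀ t, IsThin E c n (b t) ∧ b t ≠ 0) ∧
    T * ∏ t, b t = (∏ v, f v ^ e v) * ∑ t, a t * ∏ t' ∈ Finset.univ.erase t, b t'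

/-- `F = C(T_1, ..., T_m)` with an arbitrary polynomial `C` and clusters `T_i`; every algebraically
independent subfamily of the `T_i` has at most `k` members (for example `m ≤ k`). -/
def IsComp (E : Type) [Field E] (k c n s : ℕ) (F : MvPolynomial ℕ E) : Prop :=
  ∃ (m : ℕ) (T : Fin m → MvPolynomial ℕ E) (C : MvPolynomial (Fin m) E),
    (∀ i, IsCluster E c n s (T i)) ∧
    (∀ s : Finset (Fin m), AlgebraicIndependent E (fun i : s => T i) → s.card ≤ k) ∧
    F = aeval T C

/-- `H = ∑ i < N, A_i ∏ j < m, f_j ^ e_ij` with polynomials `A_i`, `f_j` in `x_0, ..., x_(n-1)` with integer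
coefficients, of degree at most `D` and length at most `2 ^ b`, and exponents `e_ij ≤ 2 ^ b`; the `f_j` are
primitive and the sum of the squares of their numbers of monomials is at most `s`. -/
def IsPowerSum (n s m N b D : ℕ) (H : MvPolynomial ℕ ℤ) : Prop :=
  ∃ (f : Fin m → MvPolynomial ℕ ℤ) (A : Fin N → MvPolynomial ℕ ℤ) (e : Fin N → Fin m → ℕ),
    (∀ j, (f j).vars ⊆ Finset.range n ∧ (f j).totalDegree ≤ D ∧ length (f j) ≤ 2 ^ b ∧
      ∀ z : ℤ, C z ∣ f j → IsUnit z) ∧
    (∀ i, (A i).vars ⊆ Finset.range n ∧ (A i).totalDegree ≤ D ∧ length (A i) ≤ 2 ^ b) ∧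
    (∀ i j, e i j ≤ 2 ^ b) ∧ ∑ j, (f j).support.card ^ 2 ≤ s ∧
    H = ∑ i, A i * ∏ j, f j ^ e i j

/-- The point `x_i = ∏ j < t, y_j ^ (α_j ^ i mod q)` (`x_i = 0` for `i ≥ n`). -/
def monomialPoint {R : Type} [CommRing R] (n q : ℕ) {t : ℕ} (α : Fin t → Fin q) (y : Fin t → R)
    (i : ℕ) : R :=
  if i < n then ∏ j, y j ^ ((α j : ℕ) ^ i % q) else 0

/-- The value of the circuit `G` at the point `x_i = ∏ j < t, (u_j + v_j X) ^ (α_j ^ i mod q)` in
`F_p[X] / (X ^ R)`. -/
noncomputable def powValue (n q p R : ℕ) {t : ℕ} (α : Fin t → Fin q) (u v : Fin t → ZMod p)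
    (G : List Gate) : AdjoinRoot (Polynomial.X ^ R : Polynomial (ZMod p)) :=
  out (monomialPoint n q α fun j =>
    AdjoinRoot.of _ (u j) + AdjoinRoot.of _ (v j) * AdjoinRoot.root _) G

/-- Let `k, c ≥ 1`, `t ≥ 6 k c + k + 1` and let `q ≥ (n + s + k + 2) ^ (6 k + 5)` be a prime.
(1) For all `F_1, ..., F_r`, `r ≤ s`, of the class `IsComp E k c n s` with nonzero product there are `α` in
`{0, ..., q - 1} ^ t` and `y` in `E ^ t` such that `F_1 ... F_r` does not vanish at the point
`x_i = ∏ j < t, y_j ^ (α_j ^ i mod q)`.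
(2) Let the polynomial of the well-formed circuit `G` (of any degree) be zero, or let it divide over `ℤ` a
polynomial `H = ∑ i < N, A_i ∏ j < m, f_j ^ e_ij` as in `IsPowerSum n s m N b D` which divides over `E` a
nonzero product of at most `s - 1` polynomials of the class.  Then `G` computes zero if and only if for all
primes `p ≤ R = (m + N + b + D t q + 2) ^ 50`, all `α` in `{0, ..., q - 1} ^ t` and `u, v` in `F_p ^ t` its value
at the point `x_i = ∏ j < t, (u_j + v_j X) ^ (α_j ^ i mod q)` in `F_p[X] / (X ^ R)` is zero.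
(For `N = 1`, `m = 0` the polynomial `H = A_1` is arbitrary of degree at most `D`.)
(3) Polynomials with at most `c + 1` monomials or at most `c` variables are thin.
(4) The sums `∑ i < k, g_i ∏ v, f_iv ^ e_iv` with thin `f_iv` (at most `s` for every `i`), arbitrary exponents
`e_iv` and polynomials `g_i` with at most `s` monomials belong to the class. -/
theorem result (E : Type) [Field E] [CharZero E] (k c n s t q : ℕ) (hk : 1 ≤ k) (hc : 1 ≤ c)
    (hq : q.Prime) (ht : 6 * k * c + k + 1 ≤ t) (hQ : (n + s + k + 2) ^ (6 * k + 5) ≤ q) :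
    (∀ S : List (MvPolynomial ℕ E), S.length ≤ s → (∀ F ∈ S, IsComp E k c n s F) →
      S.prod ≠ 0 →
        ∃ (α : Fin t → Fin q) (y : Fin t → E), eval (monomialPoint n q α y) S.prod ≠ 0) ∧
    (∀ (m N b D R : ℕ) (G : List Gate), R = (m + N + b + D * t * q + 2) ^ 50 → WellFormed G →
      (poly G = 0 ∨ ∃ H : MvPolynomial ℕ ℤ, IsPowerSum n s m N b D H ∧ poly G ∣ H ∧
        ∃ S : List (MvPolynomial ℕ E), S.length < s ∧ (∀ F ∈ S, IsComp E k c n s F) ∧
          S.prod ≠ 0 ∧ map (Int.castRingHom E) H ∣ S.prod) →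
      (G ∈ ACIT ↔ ∀ p, p.Prime → p ≤ R → ∀ (α : Fin t → Fin q) (u v : Fin t → ZMod p),
        powValue n q p R α u v G = 0)) ∧
    (∀ f : MvPolynomial ℕ E, f.vars ⊆ Finset.range n →
      f.support.card ≤ c + 1 ∨ f.vars.card ≤ c → IsThin E c n f) ∧
    ∀ (N : Fin k → ℕ) (g : Fin k → MvPolynomial ℕ E)
      (f : ∀ i : Fin k, Fin (N i) → MvPolynomial ℕ E) (e : ∀ i : Fin k, Fin (N i) → ℕ),
      (∀ i, N i ≤ s) → (∀ i v, IsThin E c n (f i v)) →
      (∀ i, (g i).vars ⊆ Finset.range n ∧ (g i).support.card ≤ s) →
        IsComp E k c n s (∑ i, g i * ∏ v, f i v ^ e i v) := by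
  refine ⟨fun S hS hSF hS0 => TOR.aHitX E k c n s t q hq ht hQ S hS hSF hS0, ?_,
    fun f hf h => TOR.H26.thinX c n f hf h,
    fun N g f e hN hf hg => TOR.H26.sumX k c n s N g f e hN hf hg⟩
  intro m N b D R G hR hG hpoly
  rcases hpoly with h0 | ⟨H, ⟨f, A, e, hf, hA, he, hms, rfl⟩, hdvd, hS⟩
  · constructor
    · rintro ⟨-, h⟩ p _ _ α u v
      have h1 : TOR.H82.powValue n q p R α u v G = 0 := by
        rw [TOR.H82.powValue_eq, h, map_zero, map_zero]
      exact h1
    · exact fun _ => ⟨hG, h0⟩
  · exact TOR.H26.test_binX E k c n s q hq ht hQ hk hc m N b D R hR f A e (fun j => (hf j).1)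
      (fun i => (hA i).1) (fun j => (hf j).2.2.2) (fun j => (hf j).2.1) (fun i => (hA i).2.1)
      (fun j => (hf j).2.2.1) (fun i => (hA i).2.2) he hms G hG (Or.inr ⟨hdvd, hS⟩)

end Pool.Agent.TOR.Final
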