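import Pool.Agent.TOR.Stmts

set_option autoImplicit false

/-!
# Squad TOR: the class without a bound for the degrees
-/

namespace Pool.Agent.TOR

open MvPolynomial

section Field

/-- `f` is a polynomial in `x_0, ..., x_(n-1)` whose exponent vectors lie in an affine space of dimension
at most `c`. -/
def IsThinX (E : Type) [Field E] (c n : ℕ) (f : MvPolynomial ℕ E) : Prop :=
  f.vars ⊆ Finset.range n ∧
    Module.finrank ℚ (vectorSpan ℚ (vec '' (f.support : Set (ℕ →₀ ℕ)))) ≤ c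

/-- `T = f_1 ^ e_1 ... f_N ^ e_N (a_1 / b_1 + ... + a_M / b_M)` with thin `f_v`, `a_t`, `b_t`. -/
def IsCluX (E : Type) [Field E] (c n s : ℕ) (T : MvPolynomial ℕ E) : Prop :=
  ∃ (N M : ℕ) (f : Fin N → MvPolynomial ℕ E) (e : Fin N → ℕ) (a b : Fin M → MvPolynomial ℕ E),
    N ≤ s ∧ M ≤ s ∧ (∀ v, IsThinX E c n (f v)) ∧ (∀ t, IsThinX E c n (a t)) ∧
    (∀ t, IsThinX E c n (b t) ∧ b t ≠ 0) ∧
    T * ∏ t, b t = (∏ v, f v ^ e v) * ∑ t, a t * ∏ t' ∈ Finset.univ.erase t, b t'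

/-- `F = C(T_1, ..., T_m)`, at most `k` of the clusters are algebraically independent. -/
def IsCmpX (E : Type) [Field E] (k c n s : ℕ) (F : MvPolynomial ℕ E) : Prop :=
  ∃ (m : ℕ) (T : Fin m → MvPolynomial ℕ E) (C : MvPolynomial (Fin m) E),
    (∀ i, IsCluX E c n s (T i)) ∧
    (∀ s : Finset (Fin m), AlgebraicIndependent E (fun i : s => T i) → s.card ≤ k) ∧
    F = aeval T C

end Field

namespace H26

variable {E : Type} [Field E]

theorem fin_bound {N : ℕ} (g : Fin N → ℕ) : ∃ D, ∀ v, g v ≤ D :=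
  ⟨Finset.univ.sup g, fun v => Finset.le_sup (Finset.mem_univ v)⟩

theorem clu_bound {c n s : ℕ} {T : MvPolynomial ℕ E} (h : IsCluX E c n s T) :
    ∃ D0, ∀ D, D0 ≤ D → IsClu E c n s D T := by
  obtain ⟨N, M, f, e, a, b, hN, hM, hf, ha, hb, hT⟩ := h
  obtain ⟨D1, h1⟩ := fin_bound fun v => (f v).totalDegree
  obtain ⟨D2, h2⟩ := fin_bound fun v => (a v).totalDegree
  obtain ⟨D3, h3⟩ := fin_bound fun v => (b v).totalDegree
  refine ⟨D1 + D2 + D3, fun D hD => ⟨N, M, f, e, a, b, hN, hM, fun v => ?_, fun v => ?_,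
    fun v => ⟨?_, (hb v).2⟩, hT⟩⟩
  · have := h1 v
    exact ⟨(hf v).1, by omega, (hf v).2⟩
  · have := h2 v
    exact ⟨(ha v).1, by omega, (ha v).2⟩
  · have := h3 v
    exact ⟨(hb v).1.1, by omega, (hb v).1.2⟩

theorem cmp_bound {k c n s : ℕ} {F : MvPolynomial ℕ E} (h : IsCmpX E k c n s F) :
    ∃ D0, ∀ D, D0 ≤ D → IsCmp E k c n s D F := by
  obtain ⟨m, T, C, hT, hk, hF⟩ := h
  choose D0 hD0 using fun i => clu_bound (hT i)
  obtain ⟨D1, h1⟩ := fin_bound D0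
  exact ⟨D1, fun D hD => ⟨m, T, C, fun i => hD0 i D ((h1 i).trans hD), hk, hF⟩⟩

theorem list_bound {k c n s : ℕ} (S : List (MvPolynomial ℕ E)) (h : ∀ F ∈ S, IsCmpX E k c n s F) :
    ∃ D0, ∀ F ∈ S, IsCmp E k c n s D0 F := by
  suffices h1 : ∃ D0, ∀ D, D0 ≤ D → ∀ F ∈ S, IsCmp E k c n s D F by
    obtain ⟨D0, h0⟩ := h1
    exact ⟨D0, h0 D0 le_rfl⟩
  induction S with
  | nil => exact ⟨0, fun D _ F hF => by simp at hF⟩
  | cons F S ih =>
    obtain ⟨D1, h1⟩ := ih fun F' hF' => h F' (List.mem_cons_of_mem _ hF')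
    obtain ⟨D2, h2⟩ := cmp_bound (h F List.mem_cons_self)
    refine ⟨D1 + D2, fun D hD F' hF' => ?_⟩
    rcases List.mem_cons.1 hF' with rfl | h3
    · exact h2 D (by omega)
    · exact h1 D (by omega) F' h3

theorem thin_of {c n D : ℕ} {f : MvPolynomial ℕ E} (h : IsThin E c n D f) : IsThinX E c n f :=
  ⟨h.1, h.2.2⟩

theorem cmp_of {k c n s D : ℕ} {F : MvPolynomial ℕ E} (h : IsCmp E k c n s D F) :
    IsCmpX E k c n s F := by
  obtain ⟨m, T, C, hT, hk, hF⟩ := h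
  refine ⟨m, T, C, fun i => ?_, hk, hF⟩
  obtain ⟨N, M, f, e, a, b, hN, hM, hf, ha, hb, hT⟩ := hT i
  exact ⟨N, M, f, e, a, b, hN, hM, fun v => thin_of (hf v), fun v => thin_of (ha v),
    fun v => ⟨thin_of (hb v).1, (hb v).2⟩, hT⟩

end H26

end Pool.Agent.TOR
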