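import Pool.Agent.TOR.Stmts
import Pool.Agent.Helper47_RS.NMT

set_option autoImplicit false

/-!
# Squad TOR, row KEY: no collisions
-/

namespace Pool.Agent.TOR.H26

open MvPolynomial
open Pool.Agent.RS (FF io total numer)

/-- Lexicographically ordered exponent vectors. -/
abbrev G1 := Lex (ℕ →₀ ℚ)

/-- Pairs of exponent vectors. -/
abbrev G2 := Lex (G1 × G1)

/-- The pair (image, vector). -/
noncomputable def gg (e : ℕ → ℕ →₀ ℕ) : (ℕ →₀ ℚ) →+ G2 where
  toFun v := toLex (toLex (lin e v), toLex v)
  map_zero' := by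
    rw [map_zero]
    rfl
  map_add' v w := by
    rw [map_add]
    rfl

/-- The first component. -/
def pr1 : G2 →+ G1 where
  toFun x := (ofLex x).1
  map_zero' := rfl
  map_add' _ _ := rfl

theorem pr1_gg (e : ℕ → ℕ →₀ ℕ) (v : ℕ →₀ ℚ) : pr1 (gg e v) = toLex (lin e v) := rfl

theorem gg_injective (e : ℕ → ℕ →₀ ℕ) : Function.Injective (gg e) := by
  intro v w h
  have h1 : (ofLex (gg e v)).2 = (ofLex (gg e w)).2 := by rw [h]
  exact toLex.injective h1

theorem vec_add (s s' : ℕ →₀ ℕ) : vec (s + s') = vec s + vec s' := by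
  ext i
  simp [vec]

theorem vec_injective : Function.Injective vec := by
  intro s s' h
  ext i
  have h1 := DFunLike.congr_fun h i
  simpa [vec] using h1

variable {E : Type} [Field E]

/-- The image of a polynomial in the Laurent series with exponents `h (vec s)`. -/
noncomputable def psi {Γ : Type} [AddCommGroup Γ] [LinearOrder Γ] [IsOrderedAddMonoid Γ]
    (h : (ℕ →₀ ℚ) →+ Γ) : MvPolynomial ℕ E →+* HahnSeries Γ E :=
  ((aeval fun i => HahnSeries.single (h (vec (Finsupp.single i 1))) (1 : E)) :
    MvPolynomial ℕ E →ₐ[E] HahnSeries Γ E).toRingHom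

theorem psi_monomial {Γ : Type} [AddCommGroup Γ] [LinearOrder Γ] [IsOrderedAddMonoid Γ]
    (h : (ℕ →₀ ℚ) →+ Γ) (s : ℕ →₀ ℕ) (a : E) :
    psi h (monomial s a) = HahnSeries.single (h (vec s)) a := by
  have hC : psi h (C a : MvPolynomial ℕ E) = HahnSeries.single 0 a := by
    change (aeval _ : MvPolynomial ℕ E →ₐ[E] HahnSeries Γ E) (C a) = _
    rw [algHom_C]
    rfl
  induction s using Finsupp.induction with
  | zero =>
    have h0 : vec 0 = 0 := by
      ext i
      simp [vec]
    rw [h0, map_zero]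
    exact hC
  | single_add i m s _ _ ih =>
    have h1 : (monomial (Finsupp.single i m + s) a : MvPolynomial ℕ E) =
        X i ^ m * monomial s a := by
      rw [X_pow_eq_monomial, monomial_mul, one_mul]
    have hX : psi h (X i : MvPolynomial ℕ E) =
        HahnSeries.single (h (vec (Finsupp.single i 1))) 1 := by
      change (aeval _ : MvPolynomial ℕ E →ₐ[E] HahnSeries Γ E) (X i) = _
      rw [aeval_X]
    have hp : ∀ m : ℕ, (HahnSeries.single (h (vec (Finsupp.single i 1))) (1 : E)) ^ m =
        HahnSeries.single (h (vec (Finsupp.single i m))) 1 := by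
      intro m
      induction m with
      | zero =>
        have h0 : vec (Finsupp.single i 0) = 0 := by
          ext i
          simp [vec]
        rw [pow_zero, h0, map_zero]
        rfl
      | succ m ihm =>
        have h2 : vec (Finsupp.single i (m + 1)) =
            vec (Finsupp.single i m) + vec (Finsupp.single i 1) := by
          rw [← vec_add, ← Finsupp.single_add]
        rw [pow_succ, ihm, HahnSeries.single_mul_single, h2, map_add, one_mul]
    rw [h1, map_mul, map_pow, hX, ih, hp, HahnSeries.single_mul_single, vec_add, map_add, one_mul]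

theorem psi_eq_sum {Γ : Type} [AddCommGroup Γ] [LinearOrder Γ] [IsOrderedAddMonoid Γ]
    (h : (ℕ →₀ ℚ) →+ Γ) (f : MvPolynomial ℕ E) :
    psi h f = ∑ s ∈ f.support, HahnSeries.single (h (vec s)) (coeff s f) := by
  conv_lhs => rw [f.as_sum]
  rw [map_sum]
  exact Finset.sum_congr rfl fun s _ => psi_monomial h s _

theorem psi_injective {Γ : Type} [AddCommGroup Γ] [LinearOrder Γ] [IsOrderedAddMonoid Γ]
    (h : (ℕ →₀ ℚ) →+ Γ) (hh : Function.Injective h) :
    Function.Injective (psi h : MvPolynomial ℕ E →+* HahnSeries Γ E) := by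
  classical
  rw [injective_iff_map_eq_zero]
  intro f hf
  ext s
  rw [coeff_zero]
  have h1 : (psi h f).coeff (h (vec s)) = coeff s f := by
    rw [psi_eq_sum, HahnSeries.coeff_sum]
    rw [Finset.sum_eq_single s]
    · rw [HahnSeries.coeff_single_same]
    · intro s' _ hs'
      rw [HahnSeries.coeff_single_of_ne]
      intro h2
      exact hs' (vec_injective (hh h2)).symm
    · intro hs
      rw [notMem_support_iff.1 hs]
      simp
  rw [← h1, hf]
  rfl

theorem key (hahl : AhlStmt) (hsub : SubStmt) : KeyStmt := by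
  intro E _ ι _ A B L ν δ e hB hA' hB' hinj htot
  classical
  obtain ⟨hsub1, hsub2, -⟩ := hsub E e
  have hmono : Monotone pr1 := fun x y h => Prod.Lex.monotone_fst x y h
  let H : ι → AddSubgroup G2 := fun t => (L t).toAddSubgroup.map (gg e)
  have hHmem : ∀ t, ∀ v ∈ L t, gg e v ∈ H t := fun t v hv => AddSubgroup.mem_map_of_mem _ hv
  have hle : ∀ t t', L t ≤ L t ⊔ L t' ⊔ Submodule.span ℚ {δ t - δ t'} := fun t t' =>
    le_sup_left.trans le_sup_left
  have hle' : ∀ t t', L t' ≤ L t ⊔ L t' ⊔ Submodule.span ℚ {δ t - δ t'} := fun t t' =>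
    le_sup_right.trans le_sup_left
  obtain ⟨em, em', hem, hem', hmain⟩ := hahl E G2 G1 pr1 hmono ι H (fun t => gg e (δ t)) (by
    rintro t x ⟨v, hv, rfl⟩ hx
    have h1 : lin e v = 0 := toLex.injective hx
    rw [hinj t t v (hle t t hv) h1, map_zero]) (by
    rintro t t' x ⟨v, hv, rfl⟩ y ⟨w, hw, rfl⟩ hxy
    rw [← map_add, ← map_add] at hxy ⊢
    have h1 : lin e (δ t + v) = lin e (δ t' + w) := toLex.injective hxy
    have h2 : lin e (v - w + (δ t - δ t')) = 0 := by
      have h3 : v - w + (δ t - δ t') = (δ t + v) - (δ t' + w) := by abel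
      rw [h3, map_sub, h1, sub_self]
    have h4 := hinj t t' _ (Submodule.add_mem _ (Submodule.sub_mem _ (hle t t' hv) (hle' t t' hw))
      (Submodule.mem_sup_right (Submodule.mem_span_singleton_self _))) h2
    have h5 : δ t + v = δ t' + w := by
      have h6 : (δ t + v) - (δ t' + w) = 0 := by
        rw [← h4]
        abel
      exact sub_eq_zero.1 h6
    rw [h5])
  let tl : (ℕ →₀ ℚ) →+ G1 :=
    { toFun := toLex
      map_zero' := rfl
      map_add' := fun _ _ => rfl }
  -- the series with exponents in the subgroup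
  have hu : ∀ t (μ : ℕ →₀ ℚ) (f : MvPolynomial ℕ E), Mon (L t) μ f →
      ∃ u : HahnSeries (H t) E,
        psi (gg e) f = HahnSeries.single (gg e μ) (1 : E) * em t u ∧
        psi tl (sub e f) = HahnSeries.single (pr1 (gg e μ)) (1 : E) * em' t u := by
    intro t μ f hf
    refine ⟨∑ s ∈ f.support.attach, HahnSeries.single
      (⟨gg e (vec s.1 - μ), hHmem t _ (hf s.1 s.2)⟩ : H t) (coeff s.1 f), ?_, ?_⟩
    · rw [psi_eq_sum, map_sum, Finset.mul_sum, ← Finset.sum_attach]
      refine Finset.sum_congr rfl fun s _ => ?_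
      rw [hem, HahnSeries.single_mul_single, one_mul, ← map_add]
      congr 2
      abel_nf
    · conv_lhs => rw [f.as_sum]
      rw [map_sum, map_sum, map_sum, Finset.mul_sum, ← Finset.sum_attach]
      refine Finset.sum_congr rfl fun s _ => ?_
      rw [hem', HahnSeries.single_mul_single, one_mul, hsub1, psi_monomial, ← map_add,
        ← map_add, ← hsub2]
      have h1 : μ + (vec s.1 - μ) = vec s.1 := by abel
      rw [h1]
      rfl
  choose uA huA huA' using fun t => hu t _ (A t) (hA' t)
  choose uB huB huB' using fun t => hu t _ (B t) (hB' t)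
  have hpsi := psi_injective (E := E) (gg e) (gg_injective e)
  have hBψ : ∀ t, psi (gg e) (B t) ≠ 0 := by
    intro t h
    exact hB t (hpsi (by rw [h, map_zero]))
  have huB0 : ∀ t, uB t ≠ 0 := by
    intro t h
    apply hBψ t
    rw [huB t, h, map_zero, mul_zero]
  have hs0 : ∀ (Γ : Type) [AddCommGroup Γ] [LinearOrder Γ] [IsOrderedAddMonoid Γ] (x : Γ),
      HahnSeries.single x (1 : E) ≠ 0 := fun Γ _ _ _ x => HahnSeries.single_ne_zero one_ne_zero
  have hBψ' : ∀ t, psi tl (sub e (B t)) ≠ 0 := by
    intro t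
    rw [huB' t]
    exact mul_ne_zero (hs0 _ _) ((map_ne_zero _).2 (huB0 t))
  have hBs : ∀ t, sub e (B t) ≠ 0 := by
    intro t h
    apply hBψ' t
    rw [h, map_zero]
  obtain ⟨hn1, -, hn3⟩ := RS.H47.nmt ι
  have hq : ∀ t, psi (gg e) (A t) / psi (gg e) (B t) =
      HahnSeries.single (gg e (δ t)) (1 : E) * em t (uA t / uB t) := by
    intro t
    rw [huA t, huB t, map_div₀, map_add]
    have h1 : HahnSeries.single (gg e (ν t) + gg e (δ t)) (1 : E) =
        HahnSeries.single (gg e (ν t)) (1 : E) * HahnSeries.single (gg e (δ t)) 1 := by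
      rw [HahnSeries.single_mul_single, one_mul]
    rw [h1]
    have h2 : em t (uB t) ≠ 0 := (map_ne_zero _).2 (huB0 t)
    have h3 := hs0 _ (gg e (ν t))
    field_simp
  have hq' : ∀ t, psi tl (sub e (A t)) / psi tl (sub e (B t)) =
      HahnSeries.single (pr1 (gg e (δ t))) (1 : E) * em' t (uA t / uB t) := by
    intro t
    rw [huA' t, huB' t, map_div₀, map_add, map_add]
    have h1 : HahnSeries.single (pr1 (gg e (ν t)) + pr1 (gg e (δ t))) (1 : E) =
        HahnSeries.single (pr1 (gg e (ν t))) (1 : E) *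
          HahnSeries.single (pr1 (gg e (δ t))) 1 := by
      rw [HahnSeries.single_mul_single, one_mul]
    rw [h1]
    have h2 : em' t (uB t) ≠ 0 := (map_ne_zero _).2 (huB0 t)
    have h3 := hs0 _ (pr1 (gg e (ν t)))
    field_simp
  have hne : ∑ t, HahnSeries.single (gg e (δ t)) (1 : E) * em t (uA t / uB t) ≠ 0 := by
    rw [← Finset.sum_congr rfl fun t _ => hq t, hn1 _ _ (psi (gg e)) A B hBψ]
    refine div_ne_zero ?_ ?_
    · intro h
      apply (hn3 E A B hB).2.1 htot
      exact hpsi (by rw [h, map_zero])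
    · rw [map_prod]
      exact Finset.prod_ne_zero_iff.2 fun t _ => hBψ t
  have h1 := hmain (fun t => uA t / uB t) hne
  rw [← Finset.sum_congr rfl fun t _ => hq' t,
    hn1 _ _ (psi tl) (fun t => sub e (A t)) (fun t => sub e (B t)) hBψ'] at h1
  refine (hn3 E (fun t => sub e (A t)) (fun t => sub e (B t)) hBs).2.2 ?_
  intro h2
  apply h1
  rw [h2, map_zero, zero_div]

end Pool.Agent.TOR.H26
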