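import Pool.Agent.Helper26_TOR.KEY
import Pool.Agent.Helper26_TOR.Free

set_option autoImplicit false

/-!
# Squad TOR: factors of thin polynomials are thin
-/

namespace Pool.Agent.TOR.H26

open MvPolynomial

/-- Pairs (value, vector). -/
abbrev G3 := Lex (ℚ × G1)

/-- The pair (value of the functional, vector). -/
noncomputable def hh (l : (ℕ →₀ ℚ) →ₗ[ℚ] ℚ) : (ℕ →₀ ℚ) →+ G3 where
  toFun v := toLex (l v, toLex v)
  map_zero' := by
    rw [map_zero]
    rfl
  map_add' v w := by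
    rw [map_add]
    rfl

theorem hh_injective (l : (ℕ →₀ ℚ) →ₗ[ℚ] ℚ) : Function.Injective (hh l) := by
  intro v w h
  have h1 : (ofLex (hh l v)).2 = (ofLex (hh l w)).2 := by rw [h]
  exact toLex.injective h1

variable {E : Type} [Field E]

/-- The smallest value of the functional on the support. -/
noncomputable def mm (l : (ℕ →₀ ℚ) →ₗ[ℚ] ℚ) (f : MvPolynomial ℕ E) : ℚ :=
  (ofLex (psi (hh l) f).order).1

theorem psi_coeff {Γ : Type} [AddCommGroup Γ] [LinearOrder Γ] [IsOrderedAddMonoid Γ]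
    (h : (ℕ →₀ ℚ) →+ Γ) (hh : Function.Injective h) (f : MvPolynomial ℕ E) (s : ℕ →₀ ℕ) :
    (psi h f).coeff (h (vec s)) = coeff s f := by
  classical
  rw [psi_eq_sum, HahnSeries.coeff_sum, Finset.sum_eq_single s]
  · rw [HahnSeries.coeff_single_same]
  · intro s' _ hs'
    rw [HahnSeries.coeff_single_of_ne]
    intro h2
    exact hs' (vec_injective (hh h2)).symm
  · intro hs
    rw [notMem_support_iff.1 hs]
    simp

theorem psi_ne {l : (ℕ →₀ ℚ) →ₗ[ℚ] ℚ} {f : MvPolynomial ℕ E} (hf : f ≠ 0) : psi (hh l) f ≠ 0 := by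
  intro h
  exact hf (psi_injective (hh l) (hh_injective l) (by rw [h, map_zero]))

theorem mm_le (l : (ℕ →₀ ℚ) →ₗ[ℚ] ℚ) (f : MvPolynomial ℕ E) {s : ℕ →₀ ℕ} (hs : s ∈ f.support) :
    mm l f ≤ l (vec s) := by
  have h1 : (psi (hh l) f).order ≤ hh l (vec s) := by
    apply HahnSeries.order_le_of_coeff_ne_zero
    rw [psi_coeff _ (hh_injective l)]
    exact mem_support_iff.1 hs
  exact Prod.Lex.monotone_fst _ _ h1

theorem mm_mem (l : (ℕ →₀ ℚ) →ₗ[ℚ] ℚ) {f : MvPolynomial ℕ E} (hf : f ≠ 0) :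
    ∃ s ∈ f.support, mm l f = l (vec s) := by
  classical
  have h1 : (psi (hh l) f).coeff (psi (hh l) f).order ≠ 0 :=
    fun h => psi_ne hf (HahnSeries.coeff_order_eq_zero.1 h)
  by_contra hcon
  push Not at hcon
  apply h1
  rw [psi_eq_sum, HahnSeries.coeff_sum]
  refine Finset.sum_eq_zero fun s hs => ?_
  rw [← psi_eq_sum]
  apply HahnSeries.coeff_single_of_ne
  intro h2
  apply hcon s hs
  unfold mm
  rw [h2]
  rfl

theorem mm_mul (l : (ℕ →₀ ℚ) →ₗ[ℚ] ℚ) {f g : MvPolynomial ℕ E} (hf : f ≠ 0) (hg : g ≠ 0) :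
    mm l (f * g) = mm l f + mm l g := by
  unfold mm
  rw [map_mul, HahnSeries.order_mul (psi_ne hf) (psi_ne hg)]
  rfl

/-- A functional which is constant on the support of a product is constant on the support of the
factors. -/
theorem const_of_mul (l : (ℕ →₀ ℚ) →ₗ[ℚ] ℚ) {f g : MvPolynomial ℕ E} (hf : f ≠ 0) (hg : g ≠ 0)
    (h : ∀ s ∈ (f * g).support, ∀ s' ∈ (f * g).support, l (vec s) = l (vec s')) :
    ∀ s ∈ f.support, ∀ s' ∈ f.support, l (vec s) = l (vec s') := by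
  have hsum : ∀ f : MvPolynomial ℕ E, ∀ s ∈ f.support, ∀ s' ∈ f.support,
      mm l f + mm (-l) f ≤ l (vec s) - l (vec s') := by
    intro f s hs s' hs'
    have h1 := mm_le l f hs
    have h2 := mm_le (-l) f hs'
    rw [LinearMap.neg_apply] at h2
    linarith
  obtain ⟨a, ha, hal⟩ := mm_mem l (mul_ne_zero hf hg)
  obtain ⟨b, hb, hbl⟩ := mm_mem (-l) (mul_ne_zero hf hg)
  have h0 : mm l (f * g) + mm (-l) (f * g) = 0 := by
    rw [hal, hbl, LinearMap.neg_apply, h a ha b hb]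
    ring
  rw [mm_mul l hf hg, mm_mul (-l) hf hg] at h0
  obtain ⟨c, hc, -⟩ := mm_mem l hg
  have h1 := hsum g c hc c hc
  rw [sub_self] at h1
  intro s hs s' hs'
  have h2 := hsum f s hs s' hs'
  have h3 := hsum f s' hs' s hs
  apply le_antisymm <;> linarith

/-- The directions of the support of a factor are directions of the support of the product. -/
theorem vectorSpan_le_of_mul {f g : MvPolynomial ℕ E} (hf : f ≠ 0) (hg : g ≠ 0) :
    vectorSpan ℚ (vec '' (f.support : Set (ℕ →₀ ℕ))) ≤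
      vectorSpan ℚ (vec '' ((f * g).support : Set (ℕ →₀ ℕ))) := by
  rw [vectorSpan_def ℚ (vec '' (f.support : Set (ℕ →₀ ℕ))), Submodule.span_le]
  rintro _ ⟨_, ⟨s, hs, rfl⟩, _, ⟨s', hs', rfl⟩, rfl⟩
  by_contra hcon
  obtain ⟨l, hl0, hl⟩ := Submodule.exists_le_ker_of_notMem hcon
  apply hl0
  change l (vec s - vec s') = 0
  rw [map_sub, sub_eq_zero]
  refine const_of_mul l hf hg ?_ s hs s' hs'
  intro a ha b hb
  rw [← sub_eq_zero, ← map_sub]
  exact hl (vsub_mem_vectorSpan ℚ (Set.mem_image_of_mem _ ha) (Set.mem_image_of_mem _ hb))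

/-- Factors of thin polynomials are thin. -/
theorem thinX_of_mul {c n : ℕ} {f g : MvPolynomial ℕ E} (hf : f ≠ 0) (hg : g ≠ 0)
    (h : IsThinX E c n (f * g)) : IsThinX E c n f := by
  refine ⟨?_, ?_⟩
  · refine Finset.Subset.trans ?_ h.1
    intro i hi
    rw [mem_vars_iff_degreeOf_ne_zero] at hi ⊢
    rw [degreeOf_mul_eq hf hg]
    omega
  · have hfin : FiniteDimensional ℚ
        (vectorSpan ℚ (vec '' ((f * g).support : Set (ℕ →₀ ℕ)))) :=
      finiteDimensional_vectorSpan_of_finite ℚ ((f * g).support.finite_toSet.image vec)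
    exact (Submodule.finrank_mono (vectorSpan_le_of_mul hf hg)).trans h.2

/-- Divisors of nonzero thin polynomials are thin. -/
theorem tfc {c n : ℕ} {f g : MvPolynomial ℕ E} (hf : f ≠ 0) (h : IsThinX E c n f) (hg : g ∣ f) :
    IsThinX E c n g := by
  obtain ⟨u, rfl⟩ := hg
  exact thinX_of_mul (left_ne_zero_of_mul hf) (right_ne_zero_of_mul hf) h

end Pool.Agent.TOR.H26
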